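import Pool.Agent.Q127.SM.Stm

/-!
# Project SM (helper127), job MAX: the maximum of `Im(z) |f(z)|` is attained
-/

set_option autoImplicit false

open Complex Matrix.SpecialLinearGroup MatrixGroups ModularGroup

namespace Pool.Agent.Q150.SM

open Pool.Agent.TH133.SH Pool.Agent.Q127.SM

variable {a : ℕ → ℤ} {N : ℕ}

/-- invariance under `Γ₀(N)` -/
theorem inv (ha : IsForm N a) {h : SL(2, ℤ)} (hh : InG N h) {z : ℂ} (hz : 0 < z.im) :
    (act h z).im * ‖fser a (act h z)‖ = z.im * ‖fser a z‖ := by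
  have h1 := ha.modular z hz (h 0 0) (h 0 1) (h 1 0) (h 1 1) (det_eq h) hh
  have h2 : act h z = ((h 0 0 : ℂ) * z + (h 0 1 : ℂ)) / ((h 1 0 : ℂ) * z + (h 1 1 : ℂ)) := by
    unfold act mob
    push_cast
    rfl
  have h3 := im_mob (det_real h) hz
  have h4 := den_ne (det_real h) hz
  have h5 : (act h z).im = z.im / ‖((h 1 0 : ℤ) : ℂ) * z + ((h 1 1 : ℤ) : ℂ)‖ ^ 2 := by
    unfold act
    rw [h3]
    push_cast
    rfl
  have h6 : ‖((h 1 0 : ℤ) : ℂ) * z + ((h 1 1 : ℤ) : ℂ)‖ ≠ 0 := by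
    rw [norm_ne_zero_iff]
    intro h7
    apply h4
    push_cast
    exact h7
  rw [h5, h2, h1, norm_mul, norm_pow]
  field_simp

/-- the form is not identically zero -/
theorem ne_zero (ha : IsForm N a) (h1 : a 1 = 1) : ∃ z : ℂ, 0 < z.im ∧ fser a z ≠ 0 := by
  by_contra hcon
  push Not at hcon
  set t : ℝ → ℕ → ℂ := fun y k => (a k : ℂ) *
    Complex.exp (2 * (Real.pi : ℂ) * Complex.I * (k : ℂ) * (y * Complex.I)) with ht
  have hIm : ∀ y : ℝ, ((y : ℂ) * Complex.I).im = y := fun y => by simp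
  have hs : ∀ y : ℝ, 0 < y → Summable (t y) := fun y hy =>
    ha.summable ((y : ℂ) * Complex.I) (by rw [hIm]; exact hy)
  have hnorm : ∀ (y : ℝ) (k : ℕ), ‖t y k‖ = |(a k : ℝ)| * Real.exp (-(2 * Real.pi * k * y)) := by
    intro y k
    have := norm_term (a := a) k ((y : ℂ) * Complex.I)
    rw [hIm] at this
    exact this
  set S : ℝ := ∑' k : ℕ, ‖t 1 (k + 2)‖ with hS
  have hsum1 : Summable (fun k : ℕ => ‖t 1 (k + 2)‖) :=
    (summable_nat_add_iff 2).mpr (hs 1 one_pos).norm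
  have hS0 : 0 ≤ S := tsum_nonneg fun _ => norm_nonneg _
  have key : ∀ y : ℝ, 1 ≤ y →
      Real.exp (-(2 * Real.pi * y)) ≤ S * Real.exp (-(4 * Real.pi * (y - 1))) := by
    intro y hy
    have hy0 : 0 < y := by linarith
    have e1 : ∑' k, t y k = 0 := hcon ((y : ℂ) * Complex.I) (by rw [hIm]; exact hy0)
    have e2 := (hs y hy0).sum_add_tsum_nat_add 2
    rw [e1, Finset.sum_range_succ, Finset.sum_range_one] at e2
    have e3 : t y 0 = 0 := by
      rw [ht]
      simp [ha.zero]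
    rw [e3, zero_add] at e2
    have e4 : ‖t y 1‖ = ‖∑' k : ℕ, t y (k + 2)‖ := by
      rw [eq_neg_of_add_eq_zero_left e2, norm_neg]
    have e5 : ‖t y 1‖ = Real.exp (-(2 * Real.pi * y)) := by
      rw [hnorm, h1]
      simp
    have hle : ∀ k : ℕ, ‖t y (k + 2)‖ ≤
        ‖t 1 (k + 2)‖ * Real.exp (-(4 * Real.pi * (y - 1))) := by
      intro k
      rw [hnorm, hnorm, mul_assoc |(a (k + 2) : ℝ)|, ← Real.exp_add]
      refine mul_le_mul_of_nonneg_left (Real.exp_le_exp.mpr ?_) (abs_nonneg _)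
      have hk : (0 : ℝ) ≤ k := Nat.cast_nonneg k
      have hp : 0 ≤ Real.pi * k * (y - 1) :=
        mul_nonneg (mul_nonneg Real.pi_pos.le hk) (by linarith)
      push_cast
      nlinarith
    have hsumy : Summable (fun k : ℕ => ‖t y (k + 2)‖) :=
      (summable_nat_add_iff 2).mpr (hs y hy0).norm
    calc Real.exp (-(2 * Real.pi * y)) = ‖∑' k : ℕ, t y (k + 2)‖ := by rw [← e5, e4]
      _ ≤ ∑' k : ℕ, ‖t y (k + 2)‖ := norm_tsum_le_tsum_norm hsumy
      _ ≤ ∑' k : ℕ, ‖t 1 (k + 2)‖ * Real.exp (-(4 * Real.pi * (y - 1))) :=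
          hsumy.tsum_le_tsum hle (hsum1.mul_right _)
      _ = S * Real.exp (-(4 * Real.pi * (y - 1))) := by rw [tsum_mul_right]
  -- contradiction for large `y`
  set y : ℝ := 2 + S with hy
  have h2 := key y (by linarith)
  have h3 : Real.exp (2 * Real.pi * y) ≤ S * Real.exp (4 * Real.pi) := by
    have h4 := mul_le_mul_of_nonneg_right h2 (Real.exp_pos (4 * Real.pi * y)).le
    rw [← Real.exp_add, mul_assoc S, ← Real.exp_add] at h4
    have e6 : -(2 * Real.pi * y) + 4 * Real.pi * y = 2 * Real.pi * y := by ring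
    have e7 : -(4 * Real.pi * (y - 1)) + 4 * Real.pi * y = 4 * Real.pi := by ring
    rwa [e6, e7] at h4
  have h5 : Real.exp (2 * Real.pi * y) = Real.exp (2 * Real.pi * S) * Real.exp (4 * Real.pi) := by
    rw [← Real.exp_add]
    congr 1
    rw [hy]
    ring
  rw [h5] at h3
  have h6 := le_of_mul_le_mul_right h3 (Real.exp_pos _)
  have h7 := Real.add_one_le_exp (2 * Real.pi * S)
  have h8 : S ≤ 2 * Real.pi * S := by
    have := Real.pi_gt_three
    nlinarith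
  linarith

/-- continuity of the form -/
theorem cont (ha : IsForm N a) : ContinuousOn (fser a) {z : ℂ | 0 < z.im} := by
  have hopen : IsOpen {z : ℂ | 0 < z.im} := isOpen_lt continuous_const Complex.continuous_im
  have h1 : DifferentiableOn ℂ (Fser a) {z : ℂ | 0 < z.im} := fun z hz =>
    (hasDerivAt_Fser ha.zero ha.summable hz).differentiableAt.differentiableWithinAt
  have h2 : DifferentiableOn ℂ (deriv (Fser a)) {z : ℂ | 0 < z.im} := h1.deriv hopen
  have h3 : ContinuousOn (fun z => (2 * (Real.pi : ℂ) * Complex.I)⁻¹ * deriv (Fser a) z)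
      {z : ℂ | 0 < z.im} := continuousOn_const.mul h2.continuousOn
  refine h3.congr fun z hz => ?_
  show fser a z = (2 * (Real.pi : ℂ) * Complex.I)⁻¹ * deriv (Fser a) z
  rw [(hasDerivAt_Fser ha.zero ha.summable hz).deriv, ← mul_assoc,
    inv_mul_cancel₀ Complex.two_pi_I_ne_zero, one_mul]

theorem act_cont (γ : SL(2, ℤ)) : ContinuousOn (act γ) {z : ℂ | 0 < z.im} := fun z hz =>
  (hasDerivAt_mob (det_real γ) hz).continuousAt.continuousWithinAt

theorem P_cont (ha : IsForm N a) (γ : SL(2, ℤ)) :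
    ContinuousOn (fun z => (act γ z).im * ‖fser a (act γ z)‖) {z : ℂ | 0 < z.im} := by
  have h1 := act_cont γ
  have h2 : ContinuousOn (fun z => fser a (act γ z)) {z : ℂ | 0 < z.im} :=
    (cont ha).comp h1 fun _ hz => act_im_pos γ hz
  exact (Complex.continuous_im.comp_continuousOn h1).mul h2.norm

/-- finitely many cosets -/
theorem cosets (hN : 1 ≤ N) : ∃ (n : ℕ) (γ : Fin (n + 1) → SL(2, ℤ)),
    ∀ g : SL(2, ℤ), ∃ (i : Fin (n + 1)) (h : SL(2, ℤ)), InG N h ∧ g = h * γ i := by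
  classical
  have : NeZero N := ⟨by omega⟩
  have : Finite (SL(2, ℤ) ⧸ CongruenceSubgroup.Gamma0 N) :=
    Subgroup.finite_quotient_of_finiteIndex
  obtain ⟨n, ⟨e⟩⟩ := Finite.exists_equiv_fin (SL(2, ℤ) ⧸ CongruenceSubgroup.Gamma0 N)
  have hn : n ≠ 0 := by
    rintro rfl
    exact (e (QuotientGroup.mk 1)).elim0
  obtain ⟨n, rfl⟩ := Nat.exists_eq_succ_of_ne_zero hn
  refine ⟨n, fun i => (e.symm i).out⁻¹, fun g => ?_⟩
  refine ⟨e (QuotientGroup.mk g⁻¹), g * (QuotientGroup.mk g⁻¹ : SL(2, ℤ) ⧸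
    CongruenceSubgroup.Gamma0 N).out, ?_, ?_⟩
  · have h1 : (QuotientGroup.mk ((QuotientGroup.mk g⁻¹ : SL(2, ℤ) ⧸
        CongruenceSubgroup.Gamma0 N).out) : SL(2, ℤ) ⧸ CongruenceSubgroup.Gamma0 N) =
        QuotientGroup.mk g⁻¹ := QuotientGroup.out_eq' _
    have h2 := QuotientGroup.eq.mp h1.symm
    rw [inv_inv] at h2
    have h3 := CongruenceSubgroup.Gamma0_mem.mp h2
    exact (ZMod.intCast_zmod_eq_zero_iff_dvd _ _).mp h3
  · show g = g * (QuotientGroup.mk g⁻¹ : SL(2, ℤ) ⧸ CongruenceSubgroup.Gamma0 N).out *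
      (e.symm (e (QuotientGroup.mk g⁻¹))).out⁻¹
    rw [Equiv.symm_apply_apply, mul_inv_cancel_right]

theorem t_max (hdec : S_dec) : S_max := by
  intro N a hN ha h1
  obtain ⟨z₁, hz₁, hf₁⟩ := ne_zero ha h1
  obtain ⟨B, hB⟩ := ha.bounded
  set P : ℂ → ℝ := fun z => z.im * ‖fser a z‖ with hP
  set T : Set ℝ := {x | ∃ z : ℂ, 0 < z.im ∧ x = P z} with hT
  have hTb : BddAbove T := ⟨B, by
    rintro x ⟨z, hz, rfl⟩
    exact hB z hz⟩
  have hTn : T.Nonempty := ⟨P z₁, z₁, hz₁, rfl⟩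
  have hS1 : P z₁ ≤ sSup T := le_csSup hTb ⟨z₁, hz₁, rfl⟩
  have hP1 : 0 < P z₁ := mul_pos hz₁ (norm_pos_iff.mpr hf₁)
  have hS : 0 < sSup T := hP1.trans_le hS1
  obtain ⟨x, ⟨z₂, hz₂, rfl⟩, hx⟩ := exists_lt_of_lt_csSup hTn (show sSup T / 2 < sSup T by linarith)
  obtain ⟨n, γ, hγ⟩ := cosets hN
  choose v hv using fun i => hdec N a hN ha (γ i) (sSup T / 2) (by linarith)
  obtain ⟨V, hV⟩ : ∃ V : ℝ, ∀ i, v i ≤ V := by
    obtain ⟨V, hV⟩ := (Set.finite_range v).bddAbove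
    exact ⟨V, fun i => hV ⟨i, rfl⟩⟩
  set K : Set ℂ := Set.Icc (-(1 / 2) : ℝ) (1 / 2) ×ℂ Set.Icc (1 / 2 : ℝ) (max V 1) with hK
  have hKc : IsCompact K := isCompact_Icc.reProdIm isCompact_Icc
  have hKn : K.Nonempty := by
    refine ⟨Complex.I, ?_⟩
    rw [hK, Complex.mem_reProdIm]
    refine ⟨⟨by norm_num, by norm_num⟩, ⟨by norm_num, ?_⟩⟩
    rw [Complex.I_im]
    exact le_max_right _ _
  have hKim : K ⊆ {z : ℂ | 0 < z.im} := by
    intro z hz
    rw [hK, Complex.mem_reProdIm] at hz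
    show 0 < z.im
    linarith [hz.2.1]
  have hmax : ∀ i, ∃ w ∈ K, ∀ u ∈ K, P (act (γ i) u) ≤ P (act (γ i) w) := fun i =>
    hKc.exists_isMaxOn hKn ((P_cont ha (γ i)).mono hKim)
  choose w hwK hw using hmax
  obtain ⟨i₀, hi₀⟩ := Finite.exists_max (fun i => P (act (γ i) (w i)))
  have hbig : ∀ z : ℂ, 0 < z.im → sSup T / 2 < P z → P z ≤ P (act (γ i₀) (w i₀)) := by
    intro z hz hPz
    obtain ⟨g, hg⟩ := ModularGroup.exists_smul_mem_fd (⟨z, hz⟩ : UpperHalfPlane)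
    set u : UpperHalfPlane := g • (⟨z, hz⟩ : UpperHalfPlane) with hu
    have hu1 : (u : ℂ) = act g z := by
      rw [hu, UpperHalfPlane.coe_specialLinearGroup_apply]
      unfold act mob
      push_cast
      rfl
    obtain ⟨i, h, hh, hgi⟩ := hγ g⁻¹
    have hzu : act h (act (γ i) (u : ℂ)) = z := by
      rw [← act_mul h (γ i) u.im_pos, ← hgi, hu1, ← act_mul _ _ hz, inv_mul_cancel, act_one]
    have hPu : P z = P (act (γ i) (u : ℂ)) := by
      have h2 := inv ha hh (act_im_pos (γ i) u.im_pos)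
      rw [hzu] at h2
      exact h2
    have him : (u : ℂ).im < V := by
      by_contra h3
      push Not at h3
      have h4 := hv i (u : ℂ) ((hV i).trans h3) u.im_pos
      have h5 : P (act (γ i) (u : ℂ)) ≤ sSup T / 2 := h4
      rw [← hPu] at h5
      linarith
    have hmem : (u : ℂ) ∈ K := by
      have h3 : 3 ≤ 4 * u.im ^ 2 := ModularGroup.three_le_four_mul_im_sq_of_mem_fd hg
      have h4 : |u.re| ≤ 1 / 2 := hg.2
      have h5 : 0 < u.im := u.im_pos
      rw [hK, Complex.mem_reProdIm]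
      refine ⟨⟨?_, ?_⟩, ⟨?_, ?_⟩⟩
      · have := (abs_le.mp h4).1
        exact this
      · exact (abs_le.mp h4).2
      · show 1 / 2 ≤ u.im
        nlinarith
      · exact him.le.trans (le_max_left _ _)
    rw [hPu]
    exact (hw i u hmem).trans (hi₀ i)
  refine ⟨act (γ i₀) (w i₀), act_im_pos _ (hKim (hwK i₀)), ?_, ?_⟩
  · have h2 := hbig z₂ hz₂ hx
    have h3 : 0 < P (act (γ i₀) (w i₀)) := by linarith
    have h4 := act_im_pos (γ i₀) (hKim (hwK i₀))
    exact (pos_iff_pos_of_mul_pos h3).mp h4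
  · intro z hz
    by_cases h2 : sSup T / 2 < P z
    · exact hbig z hz h2
    · have h3 := hbig z₂ hz₂ hx
      have h4 : P z ≤ P (act (γ i₀) (w i₀)) := by linarith
      exact h4

end Pool.Agent.Q150.SM
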