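import Pool.Agent.Q120.SM.Stm

/-!
# Project SM, job PL: bad positions everywhere
-/

set_option autoImplicit false

namespace Pool.Agent.Q150.SM

open Finset MeasureTheory Filter Topology Pool.Agent.Q120.GM Pool.Agent.Q120.SM

section

variable {Ω : Type*} {ι : Type*} {A : Ω → Set ι}

theorem F_mono {S T : Set ι} (h : S ⊆ T) : F A S ≤ F A T :=
  iSup₂_le (fun i hi => le_iSup₂ (f := fun (i : ι) (_ : i ∈ T) =>
    MeasurableSpace.generateFrom {{ω | i ∈ A ω}}) i (h hi))

variable [MeasurableSpace Ω] {μ : Measure Ω} [IsProbabilityMeasure μ] {p : ι → ℝ}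

theorem prod_compl (hA : IsModel μ p A) (E : ℕ → Set Ω) (W : ℕ → Set ι) {q : ℝ} (hq1 : q ≤ 1) (N : ℕ)
    (hE : ∀ i < N, MeasurableSet[F A (W i)] (E i)) (hW : ∀ i' < N, ∀ i < i', Disjoint (W i) (W i'))
    (hq : ∀ i < N, q ≤ μ.real (E i)) :
    MeasurableSet[F A (⋃ i ∈ {i : ℕ | i < N}, W i)] {ω | ∀ i < N, ω ∉ E i} ∧
    μ.real {ω | ∀ i < N, ω ∉ E i} ≤ (1 - q) ^ N := by
  induction N with
  | zero =>
    have h1 : {ω : Ω | ∀ i < 0, ω ∉ E i} = Set.univ := by
      ext ω
      simp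
    rw [h1]
    exact ⟨MeasurableSet.univ, by simp⟩
  | succ N ih =>
    obtain ⟨ih1, ih2⟩ := ih (fun i hi => hE i (by omega)) (fun i' hi' => hW i' (by omega))
      (fun i hi => hq i (by omega))
    have h1 : {ω : Ω | ∀ i < N + 1, ω ∉ E i} = {ω | ∀ i < N, ω ∉ E i} ∩ (E N)ᶜ := by
      ext ω
      simp only [Set.mem_ofPred_eq, Set.mem_inter_iff, Set.mem_compl_iff]
      constructor
      · intro h
        exact ⟨fun i hi => h i (by omega), h N (by omega)⟩
      · rintro ⟨h2, h3⟩ i hi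
        rcases Nat.lt_succ_iff_lt_or_eq.1 hi with h4 | h4
        · exact h2 i h4
        · rw [h4]; exact h3
    have h2 : MeasurableSet[F A (W N)] (E N)ᶜ := MeasurableSet.compl (hE N (by omega))
    have hd : Disjoint (⋃ i ∈ {i : ℕ | i < N}, W i) (W N) := by
      rw [Set.disjoint_iUnion₂_left]
      intro i hi
      exact hW N (by omega) i hi
    refine ⟨?_, ?_⟩
    · rw [h1]
      refine MeasurableSet.inter ?_ ?_
      · exact F_mono (Set.biUnion_subset_biUnion_left (fun i (hi : i < N) => (show i < N + 1 by omega))) _ ih1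
      · refine F_mono ?_ _ h2
        exact Set.subset_biUnion_of_mem (u := W) (show N < N + 1 by omega)
    · rw [h1, indep_real hA hd ih1 h2, pow_succ]
      have h3 : μ.real (E N)ᶜ = 1 - μ.real (E N) :=
        probReal_compl_eq_one_sub (F_le hA _ _ (hE N (by omega)))
      rw [h3]
      have h4 := hq N (by omega)
      have h5 : μ.real (E N) ≤ 1 := measureReal_le_one
      exact mul_le_mul ih2 (by linarith) (by linarith) (pow_nonneg (by linarith) _)

end

theorem eventually_large {x : ℕ → ℝ} (hx : Scales x) : Tendsto x atTop atTop := by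
  have h1 := (hx.2 1 one_pos).tendsto_atTop_zero
  have h2 : Tendsto (fun n => (x n ^ (-(1 : ℝ)))⁻¹) atTop atTop := by
    apply Filter.Tendsto.inv_tendsto_nhdsGT_zero
    rw [tendsto_nhdsWithin_iff]
    exact ⟨h1, Eventually.of_forall (fun n => Real.rpow_pos_of_pos (hx.1 n) _)⟩
  refine h2.congr (fun n => ?_)
  rw [Real.rpow_neg (hx.1 n).le, Real.rpow_one, inv_inv]

theorem ev_log {x : ℕ → ℝ} (hxt : Tendsto x atTop atTop) {D ε : ℝ} (hD : 0 < D) (hε : 0 < ε) :
    ∀ᶠ n in atTop, D * Real.log (x n) ≤ x n ^ ε := by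
  have h1 := (isLittleO_log_rpow_atTop hε).bound (show (0 : ℝ) < 1 / D by positivity)
  filter_upwards [hxt.eventually h1, hxt.eventually_ge_atTop 1] with n hn hn1
  have hlog : 0 ≤ Real.log (x n) := Real.log_nonneg hn1
  have hx0 : 0 ≤ x n := by linarith
  rw [Real.norm_of_nonneg hlog, Real.norm_of_nonneg (by positivity)] at hn
  have := mul_le_mul_of_nonneg_left hn hD.le
  rwa [← mul_assoc, mul_one_div_cancel hD.ne', one_mul] at this

theorem t_PL : J_PL := by
  intro Ω _ μ _ p A x E W D s θ hA hx hE hs hsθ hθ1 hD1 hD hW hp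
  have hxt := eventually_large hx
  have hlogt : Tendsto (fun n => Real.log (x n)) atTop atTop := Real.tendsto_log_atTop.comp hxt
  obtain ⟨δ, hδ⟩ : ∃ δ : ℝ, δ = (θ - s) / 4 := ⟨_, rfl⟩
  have hδ0 : 0 < δ := by rw [hδ]; linarith
  have hθ0 : 0 < θ := by linarith
  have hδθ : δ < θ := by rw [hδ]; linarith
  obtain ⟨L, hL⟩ : ∃ L : ℕ → ℕ, L = fun n => ⌊x n ^ θ⌋₊ := ⟨_, rfl⟩
  obtain ⟨N, hN⟩ : ∃ N : ℕ → ℕ, N = fun n => L n / D n := ⟨_, rfl⟩
  have hLn : ∀ n, L n = ⌊x n ^ θ⌋₊ := fun n => by rw [hL]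
  have hNn : ∀ n, N n = L n / D n := fun n => by rw [hN]
  have hND : ∀ n, N n * D n ≤ L n := fun n => by rw [hNn]; exact Nat.div_mul_le_self _ _
  have hLle : ∀ n, (L n : ℝ) ≤ x n ^ θ := fun n => by
    rw [hLn]; exact Nat.floor_le (Real.rpow_nonneg (hx.1 n).le _)
  obtain ⟨J, hJ⟩ : ∃ J : ℕ → Finset ℕ, J = fun n => (range (⌊2 * x n⌋₊ + 1)).filter
      (fun j => x n ≤ ((j * L n : ℕ) : ℝ) ∧ ((j * L n + L n : ℕ) : ℝ) ≤ 2 * x n) := ⟨_, rfl⟩
  have hJn : ∀ n, J n = (range (⌊2 * x n⌋₊ + 1)).filter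
      (fun j => x n ≤ ((j * L n : ℕ) : ℝ) ∧ ((j * L n + L n : ℕ) : ℝ) ≤ 2 * x n) :=
    fun n => by rw [hJ]
  have hbound : ∀ᶠ n in atTop, μ.real {ω | ∃ j ∈ J n, ∀ i < N n, ω ∉ E n (j * L n + i * D n)} ≤
      x n ^ (-(1 : ℝ)) := by
    filter_upwards [hxt.eventually_ge_atTop 8, hlogt.eventually_ge_atTop 1, hD δ hδ0, hW, hp δ hδ0,
      ev_log hxt (show (0 : ℝ) < 8 by norm_num) (show 0 < 2 * δ by linarith),
      ((tendsto_rpow_atTop (show 0 < θ - δ by linarith)).comp hxt).eventually_ge_atTop 4,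
      ((tendsto_rpow_atTop hθ0).comp hxt).eventually_ge_atTop 4] with n hn8 hnl hnD hnW hnp hn1 hn2 hn3
    simp only [Function.comp_apply] at hn2 hn3
    have hx0' := hx.1 n
    have hD0 : (1 : ℝ) ≤ D n := by exact_mod_cast hD1 n
    obtain ⟨q, hq⟩ : ∃ q : ℝ, q = x n ^ (-s - δ) := ⟨_, rfl⟩
    have hq0 : 0 < q := by rw [hq]; exact Real.rpow_pos_of_pos hx0' _
    have hq1 : q ≤ 1 := by
      rw [hq]
      exact Real.rpow_le_one_of_one_le_of_nonpos (by linarith) (by linarith)
    -- the number of positions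
    have hNge : x n ^ (θ - δ) / 2 ≤ N n := by
      have h1 : x n ^ θ < (L n : ℝ) + 1 := by rw [hLn]; exact Nat.lt_floor_add_one _
      have h2 : (L n : ℝ) < N n * D n + D n := by
        have := Nat.lt_div_mul_add (a := L n) (b := D n) (hD1 n)
        rw [← hNn] at this
        exact_mod_cast this
      have h3 : x n ^ θ = x n ^ (θ - δ) * x n ^ δ := by
        rw [← Real.rpow_add hx0']; congr 1; ring
      have h4 : 0 < x n ^ δ := Real.rpow_pos_of_pos hx0' _
      have h5 : (N n : ℝ) * D n ≤ N n * x n ^ δ := mul_le_mul_of_nonneg_left hnD (Nat.cast_nonneg _)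
      have h6 : 4 * x n ^ δ ≤ x n ^ (θ - δ) * x n ^ δ := mul_le_mul_of_nonneg_right hn2 h4.le
      have h7 : x n ^ (θ - δ) / 2 * x n ^ δ ≤ N n * x n ^ δ := by
        have h8 : x n ^ (θ - δ) / 2 * x n ^ δ = x n ^ θ / 2 := by rw [h3]; ring
        rw [h8]
        rw [← h3] at h6
        linarith
      exact le_of_mul_le_mul_right h7 h4
    have hNq : 4 * Real.log (x n) ≤ N n * q := by
      have h1 : x n ^ (θ - δ) / 2 * q ≤ N n * q := mul_le_mul_of_nonneg_right hNge hq0.le
      have h2 : x n ^ (θ - δ) / 2 * q = x n ^ (2 * δ) / 2 := by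
        rw [hq, div_mul_eq_mul_div, ← Real.rpow_add hx0']
        congr 2
        rw [hδ]; ring
      rw [h2] at h1
      linarith
    have hj : ∀ j ∈ J n, μ.real {ω | ∀ i < N n, ω ∉ E n (j * L n + i * D n)} ≤
        Real.exp (-(4 * Real.log (x n))) := by
      intro j hj
      rw [hJn, mem_filter] at hj
      obtain ⟨_, hj1, hj2⟩ := hj
      have hlo : ∀ i, x n - 1 < ((j * L n + i * D n : ℕ) : ℝ) := by
        intro i
        have h1 : ((j * L n : ℕ) : ℝ) ≤ ((j * L n + i * D n : ℕ) : ℝ) := by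
          exact_mod_cast Nat.le_add_right _ _
        linarith
      have hiD : ∀ i < N n, i * D n ≤ L n := fun i hi =>
        (Nat.mul_le_mul_right _ hi.le).trans (hND n)
      have hhi : ∀ i < N n, ((j * L n + i * D n : ℕ) : ℝ) ≤ 2 * x n := by
        intro i hi
        have h1 : ((j * L n + i * D n : ℕ) : ℝ) ≤ ((j * L n + L n : ℕ) : ℝ) := by
          exact_mod_cast Nat.add_le_add_left (hiD i hi) _
        linarith
      have h1 := (prod_compl hA (fun i => E n (j * L n + i * D n)) (fun i => W n (j * L n + i * D n)) hq1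
        (N n) (fun i _ => hE n _) (by
          intro i' hi' i hi
          refine hnW _ _ (hlo i) ?_ ?_ (hhi i' hi')
          · have h2 : (i + 1) * D n ≤ i' * D n := Nat.mul_le_mul_right _ hi
            have h3 : (i + 1) * D n = i * D n + D n := by ring
            omega
          · have h2 : ((i' * D n : ℕ) : ℝ) ≤ L n := by exact_mod_cast hiD i' hi'
            have h3 := hLle n
            have h4 : 0 ≤ ((i * D n : ℕ) : ℝ) := Nat.cast_nonneg _
            push_cast at h2 h4 ⊢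
            linarith) (by
          intro i hi
          rw [hq]
          exact hnp _ (hlo i) (hhi i hi))).2
      refine h1.trans ?_
      have h2 : (1 - q) ^ N n ≤ Real.exp (-q) ^ N n :=
        pow_le_pow_left₀ (by linarith) (Real.one_sub_le_exp_neg q) _
      refine h2.trans ?_
      rw [← Real.exp_nat_mul]
      apply Real.exp_le_exp.2
      linarith
    have hunion : {ω | ∃ j ∈ J n, ∀ i < N n, ω ∉ E n (j * L n + i * D n)} =
        ⋃ j ∈ J n, {ω | ∀ i < N n, ω ∉ E n (j * L n + i * D n)} := by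
      ext ω
      simp only [Set.mem_ofPred_eq, Set.mem_iUnion, exists_prop]
    rw [hunion]
    refine (measureReal_biUnion_finset_le _ _).trans ?_
    refine (sum_le_sum hj).trans ?_
    rw [sum_const, nsmul_eq_mul]
    have hcard : ((J n).card : ℝ) ≤ 3 * x n := by
      have h1 : (J n).card ≤ ⌊2 * x n⌋₊ + 1 := by
        rw [hJn]
        refine (card_filter_le _ _).trans ?_
        rw [card_range]
      have h2 : ((J n).card : ℝ) ≤ (⌊2 * x n⌋₊ : ℝ) + 1 := by exact_mod_cast h1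
      have h3 : (⌊2 * x n⌋₊ : ℝ) ≤ 2 * x n := Nat.floor_le (by positivity)
      linarith
    have hexp : Real.exp (-(4 * Real.log (x n))) = x n ^ (-(4 : ℝ)) := by
      rw [Real.rpow_def_of_pos hx0']; congr 1; ring
    rw [hexp]
    have h1 : 3 * x n * x n ^ (-(4 : ℝ)) ≤ x n ^ (-(1 : ℝ)) := by
      have h2 : x n ^ (-(1 : ℝ)) = x n ^ (3 : ℝ) * x n ^ (-(4 : ℝ)) := by
        rw [← Real.rpow_add hx0']; norm_num
      have h3 : 3 * x n ≤ x n ^ (3 : ℝ) := by
        rw [show (3 : ℝ) = ((3 : ℕ) : ℝ) by norm_num, Real.rpow_natCast]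
        push_cast
        nlinarith [mul_pos hx0' hx0']
      rw [h2]
      exact mul_le_mul_of_nonneg_right h3 (Real.rpow_nonneg hx0'.le _)
    refine le_trans ?_ h1
    exact mul_le_mul_of_nonneg_right hcard (Real.rpow_nonneg hx0'.le _)
  have hts : ∑' n, μ {ω | ∃ j ∈ J n, ∀ i < N n, ω ∉ E n (j * L n + i * D n)} ≠ ⊤ := by
    obtain ⟨n0, hn0⟩ := eventually_atTop.1 hbound
    have h1 : Summable (fun n => μ.real {ω | ∃ j ∈ J n, ∀ i < N n, ω ∉ E n (j * L n + i * D n)}) := by
      rw [← summable_nat_add_iff n0]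
      refine Summable.of_nonneg_of_le (fun n => measureReal_nonneg) (fun n => hn0 (n + n0) (by omega))
        ((summable_nat_add_iff n0).2 (hx.2 1 one_pos))
    have h2 : ∀ n, μ {ω | ∃ j ∈ J n, ∀ i < N n, ω ∉ E n (j * L n + i * D n)} =
        ENNReal.ofReal (μ.real {ω | ∃ j ∈ J n, ∀ i < N n, ω ∉ E n (j * L n + i * D n)}) := fun n => by
      rw [Measure.real, ENNReal.ofReal_toReal (measure_ne_top μ _)]
    simp_rw [h2]
    exact h1.tsum_ofReal_ne_top
  filter_upwards [ae_eventually_notMem hts] with ω hω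
  filter_upwards [hω, hxt.eventually_ge_atTop 8] with n hn hn8
  have hx0' := hx.1 n
  intro w hw1 hw2
  have hLpos : 0 < L n := by
    rw [hLn]
    apply Nat.floor_pos.2
    exact Real.one_le_rpow (by linarith) (by linarith)
  have hL2 := hLle n
  have hL1 : (1 : ℝ) ≤ L n := by exact_mod_cast hLpos
  have hxθ : x n ^ (θ - 1) * x n = x n ^ θ := by
    rw [Real.rpow_sub hx0', Real.rpow_one]; field_simp
  have hwx : (w + 4 * x n ^ (θ - 1)) * x n = w * x n + 4 * x n ^ θ := by
    rw [add_mul, mul_assoc, hxθ]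
  have hwx2 : w * x n + 4 * x n ^ θ ≤ 2 * x n := by
    rw [← hwx]
    exact mul_le_mul_of_nonneg_right hw2 hx0'.le
  have hxθ1 : 1 ≤ x n ^ θ := Real.one_le_rpow (by linarith) (by linarith)
  -- the block
  obtain ⟨j, hj⟩ : ∃ j : ℕ, j = ⌈w * x n / L n⌉₊ := ⟨_, rfl⟩
  have hj1 : w * x n ≤ ((j * L n : ℕ) : ℝ) := by
    have h1 : w * x n / L n ≤ j := by rw [hj]; exact Nat.le_ceil _
    rw [div_le_iff₀ (by linarith)] at h1
    push_cast
    exact h1
  have hj2 : ((j * L n : ℕ) : ℝ) ≤ w * x n + L n := by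
    have h1 : (j : ℝ) < w * x n / L n + 1 := by
      rw [hj]
      exact Nat.ceil_lt_add_one (by
        have : 0 ≤ w * x n := mul_nonneg (by linarith) hx0'.le
        positivity)
    have h2 : (j : ℝ) * L n ≤ (w * x n / L n + 1) * L n :=
      mul_le_mul_of_nonneg_right h1.le (by linarith)
    have h3 : (w * x n / L n + 1) * L n = w * x n + L n := by field_simp
    push_cast
    linarith
  have hjJ : j ∈ J n := by
    rw [hJn, mem_filter, mem_range]
    refine ⟨?_, ?_, ?_⟩
    · have h1 : (j : ℝ) ≤ 2 * x n := by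
        have h2 : (j : ℝ) * 1 ≤ j * L n := mul_le_mul_of_nonneg_left hL1 (Nat.cast_nonneg _)
        push_cast at hj2
        linarith
      have h2 : j ≤ ⌊2 * x n⌋₊ := Nat.le_floor h1
      omega
    · have : 1 * x n ≤ w * x n := mul_le_mul_of_nonneg_right hw1 hx0'.le
      linarith
    · push_cast at hj2 ⊢
      linarith
  have h1 : ¬ ∀ i < N n, ω ∉ E n (j * L n + i * D n) := fun h => hn ⟨j, hjJ, h⟩
  push Not at h1
  obtain ⟨i, hi, hmem⟩ := h1
  refine ⟨j * L n + i * D n, hmem, ?_, ?_⟩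
  · refine hj1.trans ?_
    have : j * L n ≤ j * L n + i * D n := Nat.le_add_right _ _
    exact_mod_cast this
  · rw [hwx]
    have h2 : i * D n ≤ L n := (Nat.mul_le_mul_right _ hi.le).trans (hND n)
    have h3 : ((i * D n : ℕ) : ℝ) ≤ L n := by exact_mod_cast h2
    push_cast at h3 hj2 ⊢
    linarith

end Pool.Agent.Q150.SM
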